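import Pool.Agent.Y645.UL.Bas

/-!
# Job UL-STAR: the rank of a generic point of an atypical family
-/

namespace Pool.Agent.Y68.UL

open MvPolynomial Module Pool.Agent.Y645.UL

variable {N : Type} [Fintype N]

/-- the cast of a rational solution is a solution -/
theorem cast_mem_perp {L : Type} [Field L] [CharZero L] {W : Submodule ℤ (N → ℤ)} {ρ : N → ℚ}
    (h : ρ ∈ perp ℚ W) : (fun n => (ρ n : L)) ∈ perp L W := by
  intro a ha
  have h1 := h a ha
  have h2 : ((∑ l, (a l : ℚ) * ρ l : ℚ) : L) = 0 := by rw [h1]; simp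
  push_cast at h2
  exact h2

/-- the solutions are spanned by the rational ones -/
theorem perp_span {L : Type} [Field L] [CharZero L] (W : Submodule ℤ (N → ℤ)) :
    ∃ (r : ℕ) (b : Fin r → N → ℚ), (∀ q, b q ∈ perp ℚ W) ∧
      ∀ η ∈ perp L W, η ∈ Submodule.span L (Set.range fun q => fun n => (b q n : L)) := by
  classical
  let b := Module.finBasis ℚ (perp ℚ W)
  let v : Fin (finrank ℚ (perp ℚ W)) → N → ℚ := fun q => (b q : N → ℚ)
  refine ⟨finrank ℚ (perp ℚ W), v, fun q => (b q).2, ?_⟩
  have hv : LinearIndependent ℚ v := b.linearIndependent.map' (perp ℚ W).subtype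
    (Submodule.ker_subtype _)
  have hvL : LinearIndependent L (fun q => algebraMap ℚ L ∘ v q) :=
    linearIndependent_algebraMap_comp_iff.2 hv
  let v' : Fin (finrank ℚ (perp ℚ W)) → perp L W :=
    fun q => ⟨fun n => (v q n : L), cast_mem_perp (b q).2⟩
  have hv' : LinearIndependent L v' := by
    refine LinearIndependent.of_comp (perp L W).subtype ?_
    convert! hvL using 2
  have h1 := finrank_perp ℚ W
  have h2 := finrank_perp L W
  have hcard : Fintype.card (Fin (finrank ℚ (perp ℚ W))) = finrank L (perp L W) := by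
    rw [Fintype.card_fin]; omega
  have hspan := hv'.span_eq_top_of_card_eq_finrank' hcard
  intro η hη
  have h3 : (⟨η, hη⟩ : perp L W) ∈ Submodule.span L (Set.range v') := by
    rw [hspan]; trivial
  have h4 := Submodule.mem_map_of_mem (f := (perp L W).subtype) h3
  rw [Submodule.map_span] at h4
  have h5 : (perp L W).subtype '' Set.range v' = Set.range fun q => fun n => (v q n : L) := by
    rw [← Set.range_comp]
    rfl
  rw [h5] at h4
  exact h4

/-- relations in terms of polynomials -/
theorem prod_zpow_iff {M : Type} [Field M] (u : N → Mˣ) (a : N → ℤ) :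
    ∏ j, u j ^ a j = 1 ↔
      ∏ j, (u j : M) ^ (a j).toNat = ∏ j, (u j : M) ^ (-(a j)).toNat := by
  have h1 : ∀ j, u j ^ a j = u j ^ (a j).toNat / u j ^ (-(a j)).toNat := by
    intro j
    rw [div_eq_mul_inv, ← zpow_natCast, ← zpow_natCast, ← zpow_sub]
    congr 1
    omega
  rw [Finset.prod_congr rfl fun j _ => h1 j, Finset.prod_div_distrib, div_eq_one]
  rw [← Units.val_inj]
  simp only [Units.coe_prod, Units.val_pow_eq_pow_val]

theorem Lam_le {k L F : Type} [Field k] [Field L] [Field F] [Algebra k L] [Algebra k F]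
    (y : N → Lˣ) (a : N → Fˣ) (h : Spc k a y) : Lam a ≤ Lam y := by
  intro m hm
  rw [mem_Lam] at hm ⊢
  rw [prod_zpow_iff] at hm ⊢
  have h1 := h (∏ j, X j ^ (m j).toNat - ∏ j, X j ^ (-(m j)).toNat)
  simp only [map_sub, map_prod, map_pow, aeval_X, sub_eq_zero] at h1
  exact h1 hm

/-- a square submatrix with nonzero determinant -/
theorem exists_det_ne {L κ σ : Type} [Field L] [Fintype κ] [DecidableEq κ] [Fintype σ]
    (M : σ → κ → L) (h : ∀ c : κ → L, (∀ s, ∑ i, c i * M s i = 0) → c = 0) :
    ∃ f : κ → σ, (Matrix.of fun i q => M (f q) i : Matrix κ κ L).det ≠ 0 := by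
  classical
  -- the vectors `M s` span
  have hspan : Submodule.span L (Set.range M) = ⊤ := by
    by_contra hne
    obtain ⟨φ, hφ, hφ'⟩ := Submodule.exists_le_ker_of_lt_top _ (lt_top_iff_ne_top.2 hne)
    apply hφ
    have hφ1 : ∀ v : κ → L, φ v = ∑ i, φ (Pi.single i 1) * v i := by
      intro v
      conv_lhs => rw [← Finset.univ_sum_single v]
      rw [map_sum]
      refine Finset.sum_congr rfl fun i _ => ?_
      have : Pi.single i (v i) = v i • (Pi.single i (1 : L) : κ → L) := by
        rw [← Pi.single_smul, smul_eq_mul, mul_one]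
      rw [this, map_smul, smul_eq_mul, mul_comm]
    have hc := h (fun i => φ (Pi.single i 1)) (fun s => by
      rw [← hφ1]
      exact hφ' (Submodule.subset_span ⟨s, rfl⟩))
    refine LinearMap.ext fun v => ?_
    rw [hφ1 v]
    refine Finset.sum_eq_zero fun i _ => ?_
    rw [congrFun hc i, Pi.zero_apply, zero_mul]
  obtain ⟨τ, g, hg, hg1, hg2⟩ := exists_linearIndependent' L M
  rw [hspan] at hg1
  let b : Basis τ L (κ → L) := Basis.mk hg2 hg1.ge
  have : Fintype τ := FiniteDimensional.fintypeBasisIndex b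
  have hcard : Fintype.card κ = Fintype.card τ := by
    rw [← Module.finrank_eq_card_basis b, Module.finrank_pi]
  let e : κ ≃ τ := Fintype.equivOfCardEq hcard
  refine ⟨g ∘ e, ?_⟩
  have h1 : LinearIndependent L (fun q => M ((g ∘ e) q)) := hg2.comp e e.injective
  have h2 : Matrix.transpose (Matrix.of fun i q => M ((g ∘ e) q) i : Matrix κ κ L) =
      Matrix.of fun q => M ((g ∘ e) q) := by
    ext i j; rfl
  rw [← Matrix.det_transpose, h2]
  have h3 : LinearIndependent L (Matrix.of fun q => M ((g ∘ e) q) : Matrix κ κ L).row := h1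
  rw [Matrix.linearIndependent_rows_iff_isUnit, Matrix.isUnit_iff_isUnit_det] at h3
  exact h3.ne_zero

theorem t_STAR : Pool.Agent.Y645.UL.S_STAR := by
  classical
  intro k L F κ _ _ _ _ _ _ _ _ _ y a ha hspc hind
  obtain ⟨r, b, hb, hbs⟩ := perp_span (L := L) (Lam y)
  -- a nonzero determinant at `y`
  obtain ⟨f, hf⟩ := exists_det_ne (L := L)
    (fun (q : Fin r) (i : κ) => (y (Sum.inl i) : L) * (b q (Sum.inl i) : L) +
      (y (Sum.inr i) : L) * (b q (Sum.inr i) : L)) (by
    intro c hc
    refine hind c fun η hη => ?_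
    have h1 := hbs η hη
    clear hη
    induction h1 using Submodule.span_induction with
    | mem x hx =>
      obtain ⟨q, rfl⟩ := hx
      exact hc q
    | zero => simp
    | add x z hx hz h1 h2 =>
      have h3 : (0 : L) = 0 + 0 := by simp
      rw [h3]
      nth_rewrite 1 [← h1]
      rw [← h2, ← Finset.sum_add_distrib]
      refine Finset.sum_congr rfl fun i _ => ?_
      simp only [Pi.add_apply]
      ring
    | smul t x hx h1 =>
      have h3 : (0 : L) = t * 0 := by simp
      rw [h3, ← h1, Finset.mul_sum]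
      refine Finset.sum_congr rfl fun i _ => ?_
      simp only [Pi.smul_apply, smul_eq_mul]
      ring)
  let D : Matrix κ κ (MvPolynomial (κ ⊕ κ) k) := Matrix.of fun i q =>
    C ((b (f q) (Sum.inl i) : ℚ) : k) * X (Sum.inl i) +
      C ((b (f q) (Sum.inr i) : ℚ) : k) * X (Sum.inr i)
  have hD : ∀ (E : Type) [Field E] [Algebra k E] [CharZero E] (x : κ ⊕ κ → Eˣ),
      aeval (fun j => (x j : E)) D.det = (Matrix.of fun i q =>
        (x (Sum.inl i) : E) * (b (f q) (Sum.inl i) : E) +
        (x (Sum.inr i) : E) * (b (f q) (Sum.inr i) : E) : Matrix κ κ E).det := by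
    intro E _ _ _ x
    rw [AlgHom.map_det]
    congr 1
    ext i q
    simp only [D, AlgHom.mapMatrix_apply, Matrix.map_apply, Matrix.of_apply, map_add, map_mul,
      aeval_X, algHom_C, map_ratCast]
    ring
  have hDa : aeval (fun j => (a j : F)) D.det ≠ 0 := by
    intro h0
    have := hspc _ h0
    rw [hD L y] at this
    exact hf this
  rw [hD F a] at hDa
  -- the linear map
  let T := perp F (Lam a)
  let e : T →ₗ[F] (κ → F) :=
    { toFun := fun η i => (a (Sum.inl i) : F) * (η : κ ⊕ κ → F) (Sum.inl i) +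
        (a (Sum.inr i) : F) * (η : κ ⊕ κ → F) (Sum.inr i)
      map_add' := by
        intro x z; ext i
        simp only [Submodule.coe_add, Pi.add_apply]; ring
      map_smul' := by
        intro c x; ext i
        simp only [Submodule.coe_smul, Pi.smul_apply, smul_eq_mul, RingHom.id_apply]; ring }
  have hmem : ∀ q, (fun n => (b q n : F)) ∈ T := fun q =>
    cast_mem_perp (perp_anti (Lam_le y a hspc) (hb q))
  have hsurj : Function.Surjective e := by
    intro t
    set M : Matrix κ κ F := Matrix.of fun i q =>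
        (a (Sum.inl i) : F) * (b (f q) (Sum.inl i) : F) +
        (a (Sum.inr i) : F) * (b (f q) (Sum.inr i) : F) with hM
    have hu : IsUnit M.det := isUnit_iff_ne_zero.2 hDa
    let c : κ → F := M⁻¹.mulVec t
    refine ⟨∑ q, c q • (⟨fun n => (b (f q) n : F), hmem (f q)⟩ : T), ?_⟩
    rw [map_sum]
    have h1 : M.mulVec c = t := by
      simp only [c, Matrix.mulVec_mulVec, Matrix.mul_nonsing_inv M hu, Matrix.one_mulVec]
    rw [← h1]
    ext i
    rw [Finset.sum_apply, Matrix.mulVec, dotProduct]
    refine Finset.sum_congr rfl fun q _ => ?_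
    rw [map_smul, Pi.smul_apply, smul_eq_mul, mul_comm]
    rfl
  -- dimensions
  let S : Submodule F (κ ⊕ κ → F) := (LinearMap.ker e).map T.subtype
  have hS : finrank F S = finrank F (LinearMap.ker e) :=
    Submodule.finrank_map_subtype_eq _ _
  have hrn := LinearMap.finrank_range_add_finrank_ker e
  rw [LinearMap.range_eq_top.2 hsurj, finrank_top, Module.finrank_pi] at hrn
  have h1 : finrank F T + finrank ℤ (Lam a) = Fintype.card (κ ⊕ κ) := finrank_perp F (Lam a)
  have h2 := mrk_add a
  have h3 : td k (fun n => (a n : F)) ≤ finrank F S := by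
    refine td_le_finrank a S fun D => ?_
    refine ⟨⟨dvec D a, dvec_mem_perp D a⟩, ?_, rfl⟩
    change e _ = 0
    ext i
    change (a (Sum.inl i) : F) * (D (a (Sum.inl i) : F) / (a (Sum.inl i) : F)) +
      (a (Sum.inr i) : F) * (D (a (Sum.inr i) : F) / (a (Sum.inr i) : F)) = 0
    rw [mul_div_cancel₀ _ (a (Sum.inl i)).ne_zero, mul_div_cancel₀ _ (a (Sum.inr i)).ne_zero,
      ← map_add, ha i, D.map_one_eq_zero]
  change td k (fun n => (a n : F)) + _ ≤ _
  omega

end Pool.Agent.Y68.UL
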